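import Mathlib
import Pool.Agent.H270R2.TA.Main
import Pool.Agent.H847R2.TA.A1
import Pool.Agent.H997R2.TA.A2
import Pool.Agent.H563R6.TA.A3
import Pool.Agent.H662R2.TA.A4
import Pool.Agent.H978R2.TA.A5
import Pool.Agent.H35R2.TA.A6
import Pool.Agent.H536R2.TA.A7
import Pool.Agent.H649R2.TA.A8
import Pool.Agent.H577R2.TA.A9
import Pool.Agent.H66R2.TA.A10
import Pool.Agent.H231R2.TA.A11
import Pool.Agent.H128R2.TA.A12
import Pool.Agent.H942R2.TA.A13
import Pool.Agent.H267R2.TA.A14
import Pool.Agent.H954R2.TA.A15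
import Pool.Agent.H415R2.TA.A16
import Pool.Agent.H942R2.TA.A17

/-!
# An operator on a separable Hilbert space without nontrivial hyperinvariant subspaces

Assembly (helper541) of the starting development `H270R2/TA` (statements and main argument:
helper270; the facts `A1`-`A17`: the helpers named in the imports).
-/

set_option autoImplicit false

open MeasureTheory Filter Set
open scoped ENNReal Topology InnerProductSpace ComplexConjugate

namespace Pool.Agent.H541R3.HI

open Pool.Agent.H270T

/-- all the facts -/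
theorem facts : Facts where
  A1 := prove_A1
  A2 := prove_A2
  A3 := prove_A3
  A4 := prove_A4
  A5 := prove_A5
  A6 := prove_A6
  A7 := prove_A7
  A11 := prove_A11 prove_A8 prove_A9 (prove_A10 prove_A9)
  A12 := prove_A12
  A13 := prove_A13
  A14 := prove_A14
  A15 := prove_A15
  A16 := prove_A16
  A17 := prove_A17

/-- complex Hilbert spaces are reflexive -/
theorem hilbert_reflexive (E : Type) [NormedAddCommGroup E] [InnerProductSpace ℂ E]
    [CompleteSpace E] : Function.Surjective (NormedSpace.inclusionInDoubleDual ℂ E) := by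
  intro ξ
  let D := InnerProductSpace.toDual ℂ E
  -- the functional `x ↦ conj (ξ (D x))`
  let η : E →ₗ[ℂ] ℂ :=
    { toFun := fun x => conj (ξ (D x))
      map_add' := fun x y => by simp [map_add]
      map_smul' := fun c x => by
        have h0 : D (c • x) = conj c • D x := LinearIsometryEquiv.map_smulₛₗ D c x
        rw [h0, map_smul, smul_eq_mul, map_mul, Complex.conj_conj]
        rfl }
  let ηc : E →L[ℂ] ℂ := η.mkContinuous ‖ξ‖ (fun x => by
    change ‖conj (ξ (D x))‖ ≤ ‖ξ‖ * ‖x‖
    rw [RCLike.norm_conj]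
    have := ξ.le_opNorm (D x)
    rwa [LinearIsometryEquiv.norm_map] at this)
  refine ⟨D.symm ηc, ?_⟩
  ext f
  rw [NormedSpace.dual_def]
  obtain ⟨x, rfl⟩ := D.surjective f
  have h1 : (inner ℂ (D.symm ηc) x : ℂ) = ηc x := InnerProductSpace.toDual_symm_apply
  have h2 : D x (D.symm ηc) = inner ℂ x (D.symm ηc) := InnerProductSpace.toDual_apply_apply
  rw [h2, ← inner_conj_symm, h1]
  change conj (conj (ξ (D x))) = ξ (D x)
  rw [Complex.conj_conj]

instance sigmaFinite_mY : SFinite mY := by
  haveI : IsProbabilityMeasure mu := facts.A3.1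
  unfold mY
  infer_instance

instance separable_H : TopologicalSpace.SeparableSpace H := by
  haveI : Fact ((1 : ℝ≥0∞) ≤ 2) := ⟨one_le_two⟩
  haveI : Fact ((2 : ℝ≥0∞) ≠ ∞) := ⟨by norm_num⟩
  haveI : SecondCountableTopology H := inferInstance
  infer_instance

/-- The operator. -/
theorem exists_op : ∃ X : H →L[ℂ] H,
    (ContinuousLinearMap.adjoint X * X ≠ X * ContinuousLinearMap.adjoint X) ∧
    ∀ M : Submodule ℂ H, IsClosed (M : Set H) →
      (∀ A : H →L[ℂ] H, X * A = A * X → ∀ x ∈ M, A x ∈ M) → M = ⊥ ∨ M = ⊤ := by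
  obtain ⟨X, hX⟩ := exists_X facts 1
  have hX1 : IsW X (cf (sh 1)) (sh 1) := by simpa using hX
  refine ⟨X, facts.A16 X hX1, fun M hMc hM => ?_⟩
  by_contra hcon
  push Not at hcon
  obtain ⟨hb, ht⟩ := hcon
  obtain ⟨f, hf, hf0⟩ := Submodule.exists_mem_ne_zero_of_ne_bot hb
  haveI : CompleteSpace M := hMc.completeSpace_coe
  have hperp : Mᗮ ≠ ⊥ := fun h => ht (by
    have := Submodule.orthogonal_orthogonal M
    rw [h, Submodule.bot_orthogonal_eq_top] at this
    exact this.symm)
  obtain ⟨h, hh, hh0⟩ := Submodule.exists_mem_ne_zero_of_ne_bot hperp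
  exact transitive facts hX1 M hM f h hf hh hf0 hh0

theorem infinite_H : ¬ FiniteDimensional ℂ H := by
  intro hfd
  obtain ⟨X, hX, hM⟩ := exists_op
  -- `H` is not trivial
  by_cases hn : Subsingleton H
  · exact hX (Subsingleton.elim _ _)
  rw [not_subsingleton_iff_nontrivial] at hn
  obtain ⟨c, hc⟩ := Module.End.exists_eigenvalue (X : H →ₗ[ℂ] H)
  have h := hM (Module.End.eigenspace (X : H →ₗ[ℂ] H) c)
    (Submodule.closed_of_finiteDimensional _) ?_
  · rcases h with h | h
    · exact hc h
    · apply hX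
      have hXc : X = c • (1 : H →L[ℂ] H) := by
        ext1 x
        have : x ∈ Module.End.eigenspace (X : H →ₗ[ℂ] H) c := by rw [h]; trivial
        rw [Module.End.mem_eigenspace_iff] at this
        simpa using this
      rw [hXc]
      have : ContinuousLinearMap.adjoint (c • (1 : H →L[ℂ] H)) = conj c • (1 : H →L[ℂ] H) := by
        rw [map_smulₛₗ]
        congr 1
        exact ContinuousLinearMap.adjoint_id
      rw [this, smul_mul_smul_comm, smul_mul_smul_comm, mul_comm c]
  · intro A hA x hx
    rw [Module.End.mem_eigenspace_iff] at hx ⊢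
    change X x = c • x at hx
    change X (A x) = c • A x
    have : X (A x) = A (X x) := congrArg (fun Z : H →L[ℂ] H => Z x) hA
    rw [this, hx, map_smul]

theorem final :
    ¬ (∀ (X : Type) [NormedAddCommGroup X] [NormedSpace ℂ X] [CompleteSpace X]
      [TopologicalSpace.SeparableSpace X],
      ¬ FiniteDimensional ℂ X →
      Function.Surjective (NormedSpace.inclusionInDoubleDual ℂ X) →
      ∀ T : X →L[ℂ] X, (∀ c : ℂ, T ≠ c • ContinuousLinearMap.id ℂ X) →
        ∃ M : Submodule ℂ X, IsClosed (M : Set X) ∧ M ≠ ⊥ ∧ M ≠ ⊤ ∧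
          ∀ S : X →L[ℂ] X, S * T = T * S → ∀ x ∈ M, S x ∈ M) := by
  intro hall
  obtain ⟨X, hX, hM⟩ := exists_op
  obtain ⟨M, hMc, hb, ht, hi⟩ := hall H infinite_H (hilbert_reflexive H) X (by
    intro c hc
    apply hX
    rw [hc]
    have : ContinuousLinearMap.adjoint (c • (ContinuousLinearMap.id ℂ H)) =
        conj c • (ContinuousLinearMap.id ℂ H) := by
      rw [map_smulₛₗ]
      congr 1
      exact ContinuousLinearMap.adjoint_id
    rw [this, smul_mul_smul_comm, smul_mul_smul_comm, mul_comm c])
  rcases hM M hMc (fun A hA => hi A hA.symm) with h | h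
  · exact hb h
  · exact ht h

end Pool.Agent.H541R3.HI
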